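import Pool.Agent.H918R3.FinDefs
import Pool.Agent.H918R3.Fin2

set_option autoImplicit false

/-!
# Rationality modulo almost all primes does not imply rationality (MP_0a3790_ag, Q1)
-/

namespace Pool.Agent.Results.MP_0a3790_ag.RationalModPrimes

open Pool.Agent.H918R3

/-- The explicit hypersurface `polG = 0` in affine 7-space over `ℤ`: over the algebraic closure of
`ℚ` it is irreducible and not rational, over the algebraic closure of `ℤ/p` it is irreducible and
rational, for every prime `p > 79`. -/
theorem result :
    (Irreducible (MvPolynomial.map (algebraMap ℤ (AlgebraicClosure ℚ)) polG) ∧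
      ¬ RationalHyp (MvPolynomial.map (algebraMap ℤ (AlgebraicClosure ℚ)) polG)) ∧
    ∀ (p : ℕ) [Fact p.Prime], 79 < p →
      Irreducible (MvPolynomial.map (algebraMap ℤ (AlgebraicClosure (ZMod p))) polG) ∧
      RationalHyp (MvPolynomial.map (algebraMap ℤ (AlgebraicClosure (ZMod p))) polG) :=
  final_result

end Pool.Agent.Results.MP_0a3790_ag.RationalModPrimes
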